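import Mathlib

set_option linter.unusedSimpArgs false
set_option linter.unusedVariables false
set_option linter.unnecessarySeqFocus false

namespace Pool.Agent.Results.MP_24e294_lc.IndispensableTransformations

/-- The ternary alphabet `a < b < c`. -/
inductive Letter
  | a | b | c
  deriving DecidableEq

open Letter

/-- Words over the alphabet. -/
abbrev Word := List Letter

/-- `occ u w` is the number of occurrences of `u` as a scattered subword of `w`. -/
def occ : Word → Word → ℕ
  | [], _ => 1
  | _ :: _, [] => 0
  | x :: u, y :: w => (if x = y then occ u w else 0) + occ (x :: u) w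

/-- The set `R` of pairs `(y, y')`. -/
inductive Rule : Word → Word → Prop
  | ac : Rule [a, c] [c, a]
  | ab (x : Word) : Rule ([a, b] ++ x ++ [b, a]) ([b, a] ++ x ++ [a, b])
  | bc (x : Word) : Rule ([b, c] ++ x ++ [c, b]) ([c, b] ++ x ++ [b, c])

/-- A direct step `w →_R w'`: one application of a rule `y → y'` or `y' → y`, `(y, y') ∈ R`. -/
def Step (w w' : Word) : Prop :=
  ∃ x z y y' : Word, (Rule y y' ∨ Rule y' y) ∧ w = x ++ y ++ z ∧ w' = x ++ y' ++ z

/-- `w'` is reached from `w` in exactly `n` direct steps. -/
def StepsN : ℕ → Word → Word → Prop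
  | 0, w, w' => w = w'
  | n + 1, w, w' => ∃ v, Step w v ∧ StepsN n v w'

/-- `w ⇒_R w'`. -/
def Reach (w w' : Word) : Prop := ∃ n, StepsN n w w'

/-- The distance: the least number of direct steps from `w` to `w'`. -/
noncomputable def dist (w w' : Word) : ℕ := sInf {n | StepsN n w w'}

/-- `w ⇒_P w'`. -/
def PTrans (w w' : Word) : Prop := Reach w w' ∧ occ [a, b, c] w = occ [a, b, c] w'

/-- `w ⇒_P w'` is an irreducible transformation (with `w ≠ w'`). -/
def IrreducibleTrans (w w' : Word) : Prop :=
  w ≠ w' ∧ PTrans w w' ∧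
    ¬ ∃ w'' : Word, w'' ≠ w ∧ w'' ≠ w' ∧ PTrans w w'' ∧ PTrans w'' w' ∧
      dist w w'' + dist w'' w' = dist w w'

/-- There is a chain `w = w₀, w₁, …, w_k = w'` in which each `w_{i-1} ⇒_P w_i` is an
irreducible transformation of order `< n`. -/
def ExpressibleBelow (n : ℕ) (w w' : Word) : Prop :=
  Relation.ReflTransGen (fun u v => IrreducibleTrans u v ∧ dist u v < n) w w'

/-! ### Basic facts on reachability -/

theorem stepsN_trans {m n : ℕ} : ∀ {u v w : Word}, StepsN m u v → StepsN n v w →
    StepsN (m + n) u w := by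
  induction m with
  | zero => intro u v w h1 h2; simp only [StepsN] at h1; subst h1; simpa using h2
  | succ m ih =>
    intro u v w h1 h2
    obtain ⟨x, hx, h⟩ := h1
    have := ih h h2
    rw [show m + 1 + n = (m + n) + 1 by ring]
    exact ⟨x, hx, this⟩

theorem Reach.trans {u v w : Word} (h1 : Reach u v) (h2 : Reach v w) : Reach u w := by
  obtain ⟨m, hm⟩ := h1
  obtain ⟨n, hn⟩ := h2
  exact ⟨m + n, stepsN_trans hm hn⟩

theorem Reach.refl (u : Word) : Reach u u := ⟨0, rfl⟩

theorem Step.reach {u v : Word} (h : Step u v) : Reach u v := ⟨1, v, h, rfl⟩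

theorem dist_spec {u v : Word} (h : Reach u v) : StepsN (dist u v) u v :=
  Nat.sInf_mem (s := {n | StepsN n u v}) h

theorem dist_le {u v : Word} {n : ℕ} (h : StepsN n u v) : dist u v ≤ n := Nat.sInf_le h

theorem eq_of_dist_zero {u v : Word} (h : Reach u v) (h0 : dist u v = 0) : u = v := by
  have := dist_spec h
  rw [h0] at this
  exact this

theorem Step.context {u v : Word} (x z : Word) (h : Step u v) :
    Step (x ++ u ++ z) (x ++ v ++ z) := by
  obtain ⟨x', z', y, y', hr, rfl, rfl⟩ := h
  exact ⟨x ++ x', z' ++ z, y, y', hr, by simp, by simp⟩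

theorem StepsN.context {n : ℕ} (x z : Word) : ∀ {u v : Word}, StepsN n u v →
    StepsN n (x ++ u ++ z) (x ++ v ++ z) := by
  induction n with
  | zero => intro u v h; simp only [StepsN] at h ⊢; rw [h]
  | succ n ih =>
    intro u v h
    obtain ⟨w, hw, h⟩ := h
    exact ⟨_, hw.context x z, ih h⟩

theorem Reach.context {u v : Word} (x z : Word) (h : Reach u v) :
    Reach (x ++ u ++ z) (x ++ v ++ z) := by
  obtain ⟨n, hn⟩ := h
  exact ⟨n, hn.context x z⟩

/-! ### Counting letters in the gaps between the letters `b` -/

/-- Number of letters `t` with exactly `k` letters `b` to their left. -/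
def gap (t : Letter) : ℕ → Word → ℕ
  | _, [] => 0
  | 0, x :: w => if x = b then 0 else (if x = t then 1 else 0) + gap t 0 w
  | k + 1, x :: w => if x = b then gap t k w else gap t (k + 1) w

/-- number of letters `b` -/
def nb : Word → ℕ
  | [] => 0
  | x :: w => (if x = b then 1 else 0) + nb w

theorem nb_append (u v : Word) : nb (u ++ v) = nb u + nb v := by
  induction u with
  | nil => simp [nb]
  | cons x u ih => simp [nb, ih]; ring

theorem gap_append (t : Letter) (k : ℕ) (u v : Word) :
    gap t k (u ++ v) = gap t k u + if nb u ≤ k then gap t (k - nb u) v else 0 := by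
  induction u generalizing k with
  | nil => simp [nb, gap]
  | cons x u ih =>
    cases k with
    | zero =>
      by_cases hx : x = b
      · simp [gap, nb, hx]
      · simp [gap, nb, hx, ih 0]; ring
    | succ k =>
      by_cases hx : x = b
      · simp only [List.cons_append, gap, nb, hx, if_true, ih k]
        have h1 : (1 + nb u ≤ k + 1) = (nb u ≤ k) := propext (by omega)
        have h2 : k + 1 - (1 + nb u) = k - nb u := by omega
        simp only [h1, h2]
      · simp [gap, nb, hx, ih (k + 1)]

theorem gap_free (t : Letter) (k : ℕ) (u : Word) (hu : nb u = 0) : gap t (k + 1) u = 0 := by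
  induction u with
  | nil => simp [gap]
  | cons x u ih =>
    simp only [nb] at hu
    by_cases hx : x = b
    · simp [hx] at hu
    · simp only [hx, if_false, zero_add] at hu
      simp [gap, hx, ih hu]

/-- the six gap counts are compatible with a step -/
structure Compat (w w' : Word) (d : ℤ) : Prop where
  nb' : nb w' = 2
  sa : 2 * gap a 0 w' + gap a 1 w' = 2 * gap a 0 w + gap a 1 w
  sc : gap c 1 w' + 2 * gap c 2 w' = gap c 1 w + 2 * gap c 2 w
  dd : |(gap a 1 w' : ℤ) - gap a 1 w| + |(gap c 1 w' : ℤ) - gap c 1 w| ≤ d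

theorem compat_step {w w' : Word} (hb : nb w = 2) (h : Step w w') : Compat w w' 2 := by
  obtain ⟨x, z, y, y', hr, rfl, rfl⟩ := h
  rcases hr with hr | hr
  · cases hr with
    | ac =>
      have h1 : ∀ t k, gap t k (x ++ [c, a] ++ z) = gap t k (x ++ [a, c] ++ z) := by
        intro t k
        simp only [List.append_assoc, gap_append t k x]
        congr 1
        split_ifs with h
        · rcases hk : k - nb x with _ | j
          · simp [gap]; ring
          · simp [gap]
        · rfl
      have h2 : nb (x ++ [c, a] ++ z) = nb (x ++ [a, c] ++ z) := by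
        simp [nb_append, nb]
      refine ⟨by rw [h2]; exact hb, ?_, ?_, ?_⟩ <;> simp only [h1] <;> simp
    | ab s =>
      have hx : nb x = 0 := by simp [nb_append, nb] at hb; omega
      have hs : nb s = 0 := by simp [nb_append, nb] at hb; omega
      have hz : nb z = 0 := by simp [nb_append, nb] at hb; omega
      refine ⟨?_, ?_, ?_, ?_⟩
      · simp [nb_append, nb, hx, hs, hz]
      · simp [gap_append, gap, nb_append, nb, hx, hs, hz, gap_free]; ring
      · simp [gap_append, gap, nb_append, nb, hx, hs, hz, gap_free]
      · simp [gap_append, gap, nb_append, nb, hx, hs, hz, gap_free]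
        try (rw [abs_le]; constructor <;> linarith)
    | bc s =>
      have hx : nb x = 0 := by simp [nb_append, nb] at hb; omega
      have hs : nb s = 0 := by simp [nb_append, nb] at hb; omega
      have hz : nb z = 0 := by simp [nb_append, nb] at hb; omega
      refine ⟨?_, ?_, ?_, ?_⟩
      · simp [nb_append, nb, hx, hs, hz]
      · simp [gap_append, gap, nb_append, nb, hx, hs, hz, gap_free]
      · simp [gap_append, gap, nb_append, nb, hx, hs, hz, gap_free]; ring
      · simp [gap_append, gap, nb_append, nb, hx, hs, hz, gap_free]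
        try (rw [abs_le]; constructor <;> linarith)
  · cases hr with
    | ac =>
      have h1 : ∀ t k, gap t k (x ++ [c, a] ++ z) = gap t k (x ++ [a, c] ++ z) := by
        intro t k
        simp only [List.append_assoc, gap_append t k x]
        congr 1
        split_ifs with h
        · rcases hk : k - nb x with _ | j
          · simp [gap]; ring
          · simp [gap]
        · rfl
      have h2 : nb (x ++ [c, a] ++ z) = nb (x ++ [a, c] ++ z) := by
        simp [nb_append, nb]
      refine ⟨by rw [← h2]; exact hb, ?_, ?_, ?_⟩ <;> simp only [h1] <;> simp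
    | ab s =>
      have hx : nb x = 0 := by simp [nb_append, nb] at hb; omega
      have hs : nb s = 0 := by simp [nb_append, nb] at hb; omega
      have hz : nb z = 0 := by simp [nb_append, nb] at hb; omega
      refine ⟨?_, ?_, ?_, ?_⟩
      · simp [nb_append, nb, hx, hs, hz]
      · simp [gap_append, gap, nb_append, nb, hx, hs, hz, gap_free]; ring
      · simp [gap_append, gap, nb_append, nb, hx, hs, hz, gap_free]
      · simp [gap_append, gap, nb_append, nb, hx, hs, hz, gap_free]
        try (rw [abs_le]; constructor <;> linarith)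
    | bc s =>
      have hx : nb x = 0 := by simp [nb_append, nb] at hb; omega
      have hs : nb s = 0 := by simp [nb_append, nb] at hb; omega
      have hz : nb z = 0 := by simp [nb_append, nb] at hb; omega
      refine ⟨?_, ?_, ?_, ?_⟩
      · simp [nb_append, nb, hx, hs, hz]
      · simp [gap_append, gap, nb_append, nb, hx, hs, hz, gap_free]
      · simp [gap_append, gap, nb_append, nb, hx, hs, hz, gap_free]; ring
      · simp [gap_append, gap, nb_append, nb, hx, hs, hz, gap_free]
        try (rw [abs_le]; constructor <;> linarith)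


theorem compat_stepsN {n : ℕ} : ∀ {w w' : Word}, nb w = 2 → StepsN n w w' →
    Compat w w' (2 * n) := by
  induction n with
  | zero =>
    intro w w' hb h
    simp only [StepsN] at h
    subst h
    exact ⟨hb, rfl, rfl, by simp⟩
  | succ n ih =>
    intro w w' hb h
    obtain ⟨v, hv, h⟩ := h
    have h1 := compat_step hb hv
    have h2 := ih h1.nb' h
    refine ⟨h2.nb', by rw [h2.sa, h1.sa], by rw [h2.sc, h1.sc], ?_⟩
    have e1 := abs_sub_le (gap a 1 w' : ℤ) (gap a 1 v) (gap a 1 w)
    have e2 := abs_sub_le (gap c 1 w' : ℤ) (gap c 1 v) (gap c 1 w)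
    have e3 := h1.dd
    have e4 := h2.dd
    push_cast
    linarith

theorem occ_c (w : Word) : (nb w = 0 → occ [c] w = gap c 0 w) ∧
    (nb w = 1 → occ [c] w = gap c 0 w + gap c 1 w) := by
  induction w with
  | nil => simp [occ, nb, gap]
  | cons x w ih =>
    obtain ⟨ih0, ih1⟩ := ih
    cases x
    · simp only [nb, occ, gap]
      simp
      exact ⟨ih0, ih1⟩
    · simp only [nb, occ, gap]
      simp
      exact fun h => ih0 h
    · simp only [nb, occ, gap]
      simp
      refine ⟨fun h => by rw [ih0 h], fun h => by rw [ih1 h]; ring⟩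

theorem occ_bc (w : Word) : (nb w = 0 → occ [b, c] w = 0) ∧
    (nb w = 1 → occ [b, c] w = gap c 1 w) ∧
    (nb w = 2 → occ [b, c] w = gap c 1 w + 2 * gap c 2 w) := by
  induction w with
  | nil => simp [occ, nb, gap]
  | cons x w ih =>
    obtain ⟨ih0, ih1, ih2⟩ := ih
    obtain ⟨k0, k1⟩ := occ_c w
    cases x
    · simp only [nb, occ, gap]
      simp
      exact ⟨ih0, ih1, ih2⟩
    · simp only [nb, occ, gap]
      simp
      refine ⟨fun h => by rw [k0 h, ih0 h]; simp, fun h => ?_⟩
      have h1 : nb w = 1 := by omega
      rw [k1 h1, ih1 h1]; ring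
    · simp only [nb, occ, gap]
      simp
      exact ⟨ih0, ih1, ih2⟩

theorem occ_abc (w : Word) : (nb w = 0 → occ [a, b, c] w = 0) ∧
    (nb w = 1 → occ [a, b, c] w = gap a 0 w * gap c 1 w) ∧
    (nb w = 2 → occ [a, b, c] w =
      gap a 0 w * gap c 1 w + 2 * gap a 0 w * gap c 2 w + gap a 1 w * gap c 2 w) := by
  induction w with
  | nil => simp [occ, nb, gap]
  | cons x w ih =>
    obtain ⟨ih0, ih1, ih2⟩ := ih
    obtain ⟨k0, k1, k2⟩ := occ_bc w
    cases x
    · simp only [nb, occ, gap]
      simp
      refine ⟨fun h => ⟨k0 h, ih0 h⟩, fun h => by rw [k1 h, ih1 h]; ring,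
        fun h => by rw [k2 h, ih2 h]; ring⟩
    · simp only [nb, occ, gap]
      simp
      refine ⟨fun h => ih0 h, fun h => ?_⟩
      have h1 : nb w = 1 := by omega
      rw [ih1 h1]
    · simp only [nb, occ, gap]
      simp
      refine ⟨fun h => ih0 h, fun h => by rw [ih1 h], fun h => by rw [ih2 h]⟩

theorem key_identity (w : Word) (h : nb w = 2) :
    2 * occ [a, b, c] w + gap a 1 w * gap c 1 w =
      (2 * gap a 0 w + gap a 1 w) * (gap c 1 w + 2 * gap c 2 w) := by
  rw [(occ_abc w).2.2 h]; ring

/-! ### Construction of a long transformation -/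

/-- letters of a `b`-free word can be permuted -/
theorem reach_perm {u v : Word} (h : u.Perm v) : nb u = 0 → Reach u v := by
  induction h with
  | nil => intro _; exact Reach.refl _
  | cons x h ih =>
    intro hb
    simp only [nb] at hb
    have := ih (by omega)
    simpa using this.context [x] []
  | swap x y l =>
    intro hb
    simp only [nb] at hb
    have hx : x ≠ b := by rintro rfl; simp at hb
    have hy : y ≠ b := by rintro rfl; simp at hb
    cases x <;> cases y <;> first | exact absurd rfl hx | exact absurd rfl hy | skip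
    · exact Reach.refl _
    · apply Step.reach
      exact ⟨[], l, [c, a], [a, c], Or.inr Rule.ac, by simp, by simp⟩
    · apply Step.reach
      exact ⟨[], l, [a, c], [c, a], Or.inl Rule.ac, by simp, by simp⟩
    · exact Reach.refl _
  | trans h1 h2 ih1 ih2 =>
    rename_i l1 l2 l3
    intro hb
    have hnb : ∀ {s t : Word}, s.Perm t → nb s = nb t := by
      intro s t hst
      induction hst with
      | nil => rfl
      | cons x _ ih => simp [nb, ih]
      | swap x y l => simp only [nb]; ring
      | trans _ _ i1 i2 => rw [i1, i2]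
    exact (ih1 hb).trans (ih2 (by rw [← hnb h1]; exact hb))

theorem nb_replicate (x : Letter) (hx : x ≠ b) (n : ℕ) : nb (List.replicate n x) = 0 := by
  induction n with
  | zero => rfl
  | succ n ih => simp [List.replicate_succ, nb, hx, ih]

theorem gap_replicate_self (x : Letter) (hx : x ≠ b) (n : ℕ) :
    gap x 0 (List.replicate n x) = n := by
  induction n with
  | zero => rfl
  | succ n ih => simp [List.replicate_succ, gap, hx, ih]; ring

theorem gap_replicate_ne (x y : Letter) (hx : x ≠ b) (hy : x ≠ y) (n : ℕ) :
    gap y 0 (List.replicate n x) = 0 := by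
  induction n with
  | zero => rfl
  | succ n ih => simp [List.replicate_succ, gap, hx, hy, ih]

theorem rep_shift (x y : Letter) (j : ℕ) :
    List.replicate j x ++ [x, y] = x :: (List.replicate j x ++ [y]) := by
  induction j with
  | zero => simp
  | succ j ih => simp [List.replicate_succ, ih]

theorem reach_in (m : Word) (j : ℕ) :
    Reach (List.replicate j a ++ [b] ++ m ++ [b] ++ List.replicate j a)
      ([b] ++ List.replicate j a ++ m ++ List.replicate j a ++ [b]) := by
  induction j generalizing m with
  | zero => simp; exact Reach.refl _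
  | succ j ih =>
    have h1 : Reach (List.replicate (j + 1) a ++ [b] ++ m ++ [b] ++ List.replicate (j + 1) a)
        (List.replicate j a ++ [b] ++ ([a] ++ m ++ [a]) ++ [b] ++ List.replicate j a) := by
      apply Step.reach
      refine ⟨List.replicate j a, List.replicate j a, [a, b] ++ m ++ [b, a],
        [b, a] ++ m ++ [a, b], Or.inl (Rule.ab m), ?_, ?_⟩
      · rw [List.replicate_succ' ]
        simp
        rw [← List.replicate_succ', List.replicate_succ]
      · simp
    refine h1.trans ?_
    have h2 := ih ([a] ++ m ++ [a])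
    have e : [b] ++ List.replicate (j + 1) a ++ m ++ List.replicate (j + 1) a ++ [b]
        = [b] ++ List.replicate j a ++ ([a] ++ m ++ [a]) ++ List.replicate j a ++ [b] := by
      rw [List.replicate_succ']
      simp
      rw [rep_shift]
    rw [e]
    exact h2

theorem reach_out (m : Word) (j : ℕ) :
    Reach ([b] ++ List.replicate j c ++ m ++ List.replicate j c ++ [b])
      (List.replicate j c ++ [b] ++ m ++ [b] ++ List.replicate j c) := by
  induction j generalizing m with
  | zero => simp; exact Reach.refl _
  | succ j ih =>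
    have h1 := ih ([c] ++ m ++ [c])
    have e : [b] ++ List.replicate (j + 1) c ++ m ++ List.replicate (j + 1) c ++ [b]
        = [b] ++ List.replicate j c ++ ([c] ++ m ++ [c]) ++ List.replicate j c ++ [b] := by
      rw [List.replicate_succ']
      simp
      rw [rep_shift]
    rw [e]
    refine h1.trans ?_
    apply Step.reach
    refine ⟨List.replicate j c, List.replicate j c, [b, c] ++ m ++ [c, b],
      [c, b] ++ m ++ [b, c], Or.inl (Rule.bc m), ?_, ?_⟩
    · simp
    · rw [List.replicate_succ']
      simp
      rw [← List.replicate_succ', List.replicate_succ]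


/-- start word `a^h b (a c^{2h+1}) b a^h` -/
def startW (h : ℕ) : Word :=
  List.replicate h a ++ [b] ++ (a :: List.replicate (2 * h + 1) c) ++ [b] ++ List.replicate h a

/-- end word `c^h b (a^{2h+1} c) b c^h` -/
def endW (h : ℕ) : Word :=
  List.replicate h c ++ [b] ++ (List.replicate (2 * h + 1) a ++ [c]) ++ [b] ++ List.replicate h c

theorem reach_start_end (h : ℕ) : Reach (startW h) (endW h) := by
  have h1 := reach_in (a :: List.replicate (2 * h + 1) c) h
  have h2 := reach_out (List.replicate (2 * h + 1) a ++ [c]) h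
  refine (h1.trans ?_).trans h2
  have hp : (List.replicate h a ++ (a :: List.replicate (2 * h + 1) c) ++
      List.replicate h a).Perm
      (List.replicate h c ++ (List.replicate (2 * h + 1) a ++ [c]) ++ List.replicate h c) := by
    rw [List.perm_iff_count]
    intro x
    cases x <;> simp [List.count_replicate, List.count_cons] <;> ring
  have hn : nb (List.replicate h a ++ (a :: List.replicate (2 * h + 1) c) ++
      List.replicate h a) = 0 := by
    simp [nb_append, nb, nb_replicate]
  have h3 := (reach_perm hp hn).context [b] [b]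
  simpa using h3

theorem nb_start (h : ℕ) : nb (startW h) = 2 := by
  simp [startW, nb_append, nb, nb_replicate]

theorem nb_end (h : ℕ) : nb (endW h) = 2 := by
  simp [endW, nb_append, nb, nb_replicate]

theorem gap_start (h : ℕ) : gap a 1 (startW h) = 1 ∧ gap c 1 (startW h) = 2 * h + 1 := by
  constructor
  · simp [startW, gap_append, gap, nb_append, nb, nb_replicate, gap_free,
      gap_replicate_self, gap_replicate_ne]
  · simp [startW, gap_append, gap, nb_append, nb, nb_replicate, gap_free,
      gap_replicate_self, gap_replicate_ne]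

theorem gap_end (h : ℕ) : gap a 1 (endW h) = 2 * h + 1 ∧ gap c 1 (endW h) = 1 := by
  constructor
  · simp [endW, gap_append, gap, nb_append, nb, nb_replicate, gap_free,
      gap_replicate_self, gap_replicate_ne]
  · simp [endW, gap_append, gap, nb_append, nb, nb_replicate, gap_free,
      gap_replicate_self, gap_replicate_ne]

/-- equality of `|·|_abc` is equality of the product of the two middle counts -/
theorem prod_eq {w w' : Word} (hb : nb w = 2) (h : Reach w w') :
    nb w' = 2 ∧ (occ [a, b, c] w = occ [a, b, c] w' ↔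
      gap a 1 w * gap c 1 w = gap a 1 w' * gap c 1 w') := by
  obtain ⟨n, hn⟩ := h
  have hc := compat_stepsN hb hn
  have k1 := key_identity w hb
  have k2 := key_identity w' hc.nb'
  rw [hc.sa, hc.sc] at k2
  refine ⟨hc.nb', ?_, ?_⟩
  · intro h; omega
  · intro h; omega

theorem PTrans.trans {u v w : Word} (h1 : PTrans u v) (h2 : PTrans v w) : PTrans u w :=
  ⟨h1.1.trans h2.1, h1.2.trans h2.2⟩

theorem ptrans_start_end (h : ℕ) : PTrans (startW h) (endW h) := by
  refine ⟨reach_start_end h, ?_⟩
  rw [(prod_eq (nb_start h) (reach_start_end h)).2, (gap_start h).1, (gap_start h).2,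
    (gap_end h).1, (gap_end h).2]
  ring

/-- distances between the two clusters are large -/
theorem far {p : ℕ} (hp : p.Prime) {w w' : Word} {n : ℕ} (hb : nb w = 2)
    (h : gap a 1 w * gap c 1 w = p) (h' : gap a 1 w' * gap c 1 w' = p)
    (hne : gap a 1 w ≠ gap a 1 w') (hn : StepsN n w w') : p - 1 ≤ n := by
  have hc := compat_stepsN hb hn
  have key : ∀ x y : ℕ, x * y = p → (x = 1 ∧ y = p) ∨ (x = p ∧ y = 1) := by
    intro x y hxy
    have hx : x ∣ p := ⟨y, hxy.symm⟩
    rcases (Nat.dvd_prime hp).1 hx with h1 | h1
    · left; subst h1; exact ⟨rfl, by simpa using hxy⟩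
    · right; subst h1; refine ⟨rfl, ?_⟩
      have : x * y = x * 1 := by rw [hxy, mul_one]
      exact Nat.eq_of_mul_eq_mul_left hp.pos this
  have hp1 := hp.two_le
  have hd := hc.dd
  rcases key _ _ h with ⟨h1, h2⟩ | ⟨h1, h2⟩ <;> rcases key _ _ h' with ⟨h3, h4⟩ | ⟨h3, h4⟩
  · exact absurd (h1.trans h3.symm) hne
  · rw [h1, h2, h3, h4] at hd
    have e1 : |((p : ℕ) : ℤ) - ((1 : ℕ) : ℤ)| = (p : ℤ) - 1 := by
      rw [abs_of_nonneg] <;> push_cast <;> omega
    have e2 : |((1 : ℕ) : ℤ) - ((p : ℕ) : ℤ)| = (p : ℤ) - 1 := by
      rw [abs_sub_comm]; exact e1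
    rw [e1, e2] at hd
    omega
  · rw [h1, h2, h3, h4] at hd
    have e1 : |((p : ℕ) : ℤ) - ((1 : ℕ) : ℤ)| = (p : ℤ) - 1 := by
      rw [abs_of_nonneg] <;> push_cast <;> omega
    have e2 : |((1 : ℕ) : ℤ) - ((p : ℕ) : ℤ)| = (p : ℤ) - 1 := by
      rw [abs_sub_comm]; exact e1
    rw [e1, e2] at hd
    omega
  · exact absurd (h1.trans h3.symm) hne

/-- **Q1 of MP_24e294 (true).**  For every `N` there are `n ≥ N` and an irreducible
transformation `w ⇒_P w'` of order `n` which is not expressible by irreducible
transformations of order `< n`. -/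
theorem result : ∀ N : ℕ, ∃ n ≥ N, ∃ w w' : Word,
    IrreducibleTrans w w' ∧ dist w w' = n ∧ ¬ ExpressibleBelow n w w' := by
  intro N
  obtain ⟨p, hpN, hp⟩ := Nat.exists_infinite_primes (N + 3)
  have hodd : p % 2 = 1 := by
    rcases hp.eq_two_or_odd with h | h
    · omega
    · exact h
  obtain ⟨h, rfl⟩ : ∃ h, p = 2 * h + 1 := ⟨p / 2, by omega⟩
  set p := 2 * h + 1 with hpdef
  set u := startW h with hu
  -- good words: those P-equivalent to `u`
  have good : ∀ {w : Word}, PTrans u w → nb w = 2 ∧ gap a 1 w * gap c 1 w = p := by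
    intro w hw
    have h1 := prod_eq (nb_start h) hw.1
    refine ⟨h1.1, ?_⟩
    rw [← h1.2.1 hw.2, (gap_start h).1, (gap_start h).2]
    ring
  let S : Set ℕ := {n | ∃ w w' : Word, PTrans u w ∧ PTrans w w' ∧ gap a 1 w ≠ gap a 1 w' ∧
    StepsN n w w'}
  have hS : S.Nonempty := by
    obtain ⟨n, hn⟩ := reach_start_end h
    refine ⟨n, startW h, endW h, ⟨Reach.refl _, rfl⟩, ptrans_start_end h, ?_, hn⟩
    rw [(gap_start h).1, (gap_end h).1]
    have := hp.two_le
    omega
  obtain ⟨w, w', huw, hww, hne, hn⟩ := Nat.sInf_mem hS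
  have hmin : ∀ n ∈ S, sInf S ≤ n := fun n hn => Nat.sInf_le hn
  set n := sInf S with hnS
  -- a change of cluster needs at least `n` steps
  have jump : ∀ {x y : Word}, PTrans u x → PTrans x y → gap a 1 x ≠ gap a 1 y →
      n ≤ dist x y := by
    intro x y hx hxy hd
    exact hmin _ ⟨x, y, hx, hxy, hd, dist_spec hxy.1⟩
  have hd : dist w w' = n := le_antisymm (dist_le hn) (jump huw hww hne)
  refine ⟨n, ?_, w, w', ?_, hd, ?_⟩
  · have g1 := good huw
    have g2 := good (huw.trans hww)
    have := far hp g1.1 g1.2 g2.2 hne hn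
    show N ≤ n
    omega
  · refine ⟨fun he => hne (by rw [he]), hww, ?_⟩
    rintro ⟨w'', h1, h2, h3, h4, h5⟩
    by_cases hc : gap a 1 w = gap a 1 w''
    · have h6 := jump (huw.trans h3) h4 (by rw [← hc]; exact hne)
      have h7 : dist w w'' = 0 := by omega
      exact h1 (eq_of_dist_zero h3.1 h7).symm
    · have h6 := jump huw h3 hc
      have h7 : dist w'' w' = 0 := by omega
      exact h2 (eq_of_dist_zero h4.1 h7)
  · intro hex
    have hinv : ∀ v : Word, Relation.ReflTransGen
        (fun u v => IrreducibleTrans u v ∧ dist u v < n) w v →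
        PTrans w v ∧ gap a 1 w = gap a 1 v := by
      intro v hv
      induction hv with
      | refl => exact ⟨⟨Reach.refl _, rfl⟩, rfl⟩
      | tail h1 h2 ih =>
        rename_i x y
        refine ⟨ih.1.trans h2.1.2.1, ?_⟩
        by_contra hcon
        have h3 := jump (huw.trans ih.1) h2.1.2.1 (by rw [← ih.2]; exact hcon)
        have := h2.2
        omega
    exact hne (hinv w' hex).2

end Pool.Agent.Results.MP_24e294_lc.IndispensableTransformations
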